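import Pool.Agent.MP_6e64bc_an.H72.Fin

open Metric Set

/-- The Taylor coefficients of univalent functions `f z = z + a₂ z ^ 2 + ⋯` on the unit disc that
are bounded by `M` satisfy `‖aₙ‖ ≤ C n ^ (-27 / 40)`, with `C` depending on `M` only. -/
theorem Pool.Agent.Results.MP_6e64bc_an.GammaJets.result (M : ℝ) :
    ∃ C : ℝ, ∀ f : ℂ → ℂ, DifferentiableOn ℂ f (ball 0 1) → InjOn f (ball 0 1) → f 0 = 0 →
      deriv f 0 = 1 → (∀ z ∈ ball (0 : ℂ) 1, ‖f z‖ < M) → ∀ n : ℕ, 1 ≤ n →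
        ‖iteratedDeriv n f 0 / (n.factorial : ℂ)‖ ≤ C * (n : ℝ) ^ (-(27 / 40 : ℝ)) :=
  Pool.Agent.MP_6e64bc_an.H72.coef_bound M
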