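import Pool.Agent.MP_6e64bc_an.H26.Lim

open Metric Set Filter

/-- There is a bounded univalent function `f z = z + a₂ z ^ 2 + ⋯` on the unit disc whose Taylor
coefficients satisfy `‖aₙ‖ ≥ n ^ (-0.758)` for infinitely many `n`. -/
theorem Pool.Agent.Results.MP_6e64bc_an.GammaUpper.result :
    ∃ f : ℂ → ℂ, DifferentiableOn ℂ f (ball 0 1) ∧ InjOn f (ball 0 1) ∧ f 0 = 0 ∧
      deriv f 0 = 1 ∧ (∃ M : ℝ, ∀ z ∈ ball (0 : ℂ) 1, ‖f z‖ < M) ∧
      ∃ᶠ n : ℕ in atTop,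
        (n : ℝ) ^ (-(379 / 500 : ℝ)) ≤ ‖iteratedDeriv n f 0 / (n.factorial : ℂ)‖ := by
  obtain ⟨f, h1, h2, h3, h4, h5⟩ := Pool.Agent.MP_6e64bc_an.H26.exists_lim
  have hlo : 1 / 2 ≤ ‖deriv f 0‖ := by
    have := norm_sub_norm_le (1 : ℂ) (deriv f 0)
    rw [norm_sub_rev, norm_one] at this; linarith
  have hhi : ‖deriv f 0‖ ≤ 3 / 2 := by
    have := norm_sub_norm_le (deriv f 0) (1 : ℂ)
    rw [norm_one] at this; linarith
  have h0 : deriv f 0 ≠ 0 := by rw [← norm_pos_iff]; linarith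
  refine ⟨fun z => (-f 0 + f z) / deriv f 0, (h1.const_add _).div_const _, ?_, by simp, ?_,
    ⟨5, fun z hz => ?_⟩, frequently_atTop.2 fun j => ?_⟩
  · intro z hz w hw h
    exact h2 hz hw (add_left_cancel ((div_left_inj' h0).1 h))
  · rw [deriv_div_const, deriv_const_add, div_self h0]
  · rw [norm_div, div_lt_iff₀ (by linarith)]
    have := norm_add_le (-f 0) (f z)
    rw [norm_neg] at this
    linarith [h3 z hz, h3 0 (mem_ball_self one_pos)]
  · obtain ⟨N, a1, a2⟩ := h5 (j + 1)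
    refine ⟨N, by omega, ?_⟩
    rw [iteratedDeriv_div_const, iteratedDeriv_const_add (by omega), div_right_comm, norm_div,
      le_div_iff₀ (by linarith)]
    refine le_trans ?_ a2
    rw [mul_comm]
    gcongr
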